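import Pool.Agent.AT5.Stmts2
import Pool.Agent.Helper69_AT2.Teb4

/-!
# Squad AT5, row TB5: the part over the conjugates of `(U, f)` is the same in `G` and in `N(U)`

The proof of `T2.TebStmt` (`Helper69_AT2/Teb1` to `Teb4`), for an idempotent `f` of `N(U)` instead of a
block.
-/

open scoped BigOperators

set_option linter.unusedSectionVars false

noncomputable section

namespace Pool.Agent.PP.T5.H70

open Pool.Agent.Helper51_AWC Pool.Agent.Helper79_WRA Pool.Agent.PP Pool.Agent.PP.KF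
open Pool.Agent.PP.K9 Pool.Agent.PP.K9.H97 Pool.Agent.PP.H75 Pool.Agent.PP.T3 Pool.Agent.PP.T2
open Pool.Agent.PP.T2.H69

attribute [local instance] Ideal.Quotient.field

section env

variable {F G A : Type} [Field F] [Group G] [Finite G] [Group A] [Finite A]

/-- the hypotheses of TB5 for one subgroup `Q` -/
structure Eo (ℓ : ℕ) (U Q : Subgroup G) (f : G → F) : Prop where
  hF : GoodF ℓ F
  ix : Ix (Subgroup.normalizer (U : Set G)) f
  pg : IsPGroup ℓ Q
  ort : ∀ g h : G, Bt U Q g → Bt U Q h → conjS g U ≠ conjS h U →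
    mulF (br Q (cj g f)) (br Q (cj h f)) = 0

variable {ℓ : ℕ} {U Q : Subgroup G} {f : G → F}

/-- `cj g f` is invariant under `g X g⁻¹` -/
theorem Eo.cjinv (h : Eo ℓ U Q f) {g x : G}
    (hx : x ∈ conjS g (Subgroup.normalizer (U : Set G))) : cj x (cj g f) = cj g f := by
  have h1 := h.ix.inv ((mem_conjX g x).1 hx)
  have e : x * g = g * (g⁻¹ * x * g) := by group
  rw [cj_cj, e, ← cj_cj, h1]

theorem Eo.coset (h : Eo ℓ U Q f) {g k : G} (H : g⁻¹ * k ∈ Subgroup.normalizer (U : Set G)) :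
    Eg Q f g = Eg Q f k := by
  have e : k = g * (g⁻¹ * k) := by group
  unfold Eg
  rw [e, ← cj_cj, h.ix.inv H]

theorem Eo.idem (h : Eo ℓ U Q f) {g : G} (hg : Bt U Q g) :
    mulF (Eg Q f g) (Eg Q f g) = Eg Q f g := by
  have hinv : H66.Inv Q (cj g f) := by
    intro x hx
    exact (cj_eq_iff x _).1 (h.cjinv (Q_le hg hx))
  unfold Eg
  rw [← H66.br_mulF h.hF h.pg hinv hinv, ← cj_mulF, h.ix.mul]

theorem Eo.orth (h : Eo ℓ U Q f) {g k : G} (hg : Bt U Q g) (hk : Bt U Q k)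
    (H : g⁻¹ * k ∉ Subgroup.normalizer (U : Set G)) : mulF (Eg Q f g) (Eg Q f k) = 0 :=
  h.ort g k hg hk (fun h' => H ((conjS_eq_iff g k U).1 h'))

theorem Eo.fixE (h : Eo ℓ U Q f) {g x : G} (hx : x ∈ Subgroup.normalizer (Q : Set G))
    (hx' : x ∈ conjS g (Subgroup.normalizer (U : Set G))) : cj x (Eg Q f g) = Eg Q f g := by
  rw [cj_Eg hx]
  apply (h.coset _).symm
  rw [mem_conjX] at hx'
  rwa [← mul_assoc]

end env

section pushenv

variable {F G A : Type} [Field F] [Group G] [Finite G] [Group A] [Finite A]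
variable {ℓ : ℕ} {U Q : Subgroup G} {f : G → F} (p : Subgroup.normalizer (Q : Set G) →* A)

theorem Eo.Pg_coset (h : Eo ℓ U Q f) {g k : G} (H : g⁻¹ * k ∈ Subgroup.normalizer (U : Set G)) :
    Pg p f g = Pg p f k := by
  unfold Pg
  rw [h.coset H]

theorem Eo.Pg_fix (h : Eo ℓ U Q f) {g : G} {n : Subgroup.normalizer (Q : Set G)}
    (hn : (n : G) ∈ conjS g (Subgroup.normalizer (U : Set G))) :
    cj (p n) (Pg p f g) = Pg p f g := by
  rw [cj_Pg]
  apply (h.Pg_coset p _).symm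
  rw [mem_conjX] at hn
  rwa [← mul_assoc]

theorem Eo.Pg_idem (h : Eo ℓ U Q f) {g : G} (hg : Bt U Q g) :
    mulF (Pg p f g) (Pg p f g) = Pg p f g := by
  rw [mulF_Pg, h.idem hg]
  rfl

theorem Eo.Pg_orth (h : Eo ℓ U Q f) {g k : G} (hg : Bt U Q g) (hk : Bt U Q k)
    (H : g⁻¹ * k ∉ Subgroup.normalizer (U : Set G)) : mulF (Pg p f g) (Pg p f k) = 0 := by
  rw [mulF_Pg, h.orth hg hk H]
  exact push_zero p

theorem Eo.out_ne {q k : G ⧸ Subgroup.normalizer (U : Set G)} (hqk : q ≠ k) :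
    q.out⁻¹ * k.out ∉ Subgroup.normalizer (U : Set G) := by
  intro h
  apply hqk
  rw [← QuotientGroup.out_eq' q, ← QuotientGroup.out_eq' k]
  exact QuotientGroup.eq.2 h

/-- products with the sum -/
theorem Eo.mul_sum (h : Eo ℓ U Q f) {q : G ⧸ Subgroup.normalizer (U : Set G)}
    (hq : q ∈ II U Q) : mulF (∑ k ∈ II U Q, Pg p f k.out) (Pg p f q.out) = Pg p f q.out := by
  apply ma_injective
  rw [ma_mul, ma_sum, Finset.sum_mul, Finset.sum_eq_single_of_mem q hq]
  · rw [← ma_mul, h.Pg_idem p (mem_II.1 hq)]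
  · intro k hk hkq
    rw [← ma_mul, h.Pg_orth p (mem_II.1 hk) (mem_II.1 hq) (Eo.out_ne hkq), ma_zero]

theorem Eo.sum_idem (h : Eo ℓ U Q f) (hp : Function.Surjective p) :
    IsIdem (∑ k ∈ II U Q, Pg p f k.out) := by
  constructor
  · intro x y
    obtain ⟨n, rfl⟩ := hp y
    have h1 : cj (p n)⁻¹ (∑ k ∈ II U Q, Pg p f k.out) = ∑ k ∈ II U Q, Pg p f k.out := by
      rw [← map_inv]
      obtain ⟨m, hm⟩ : ∃ m, m = n⁻¹ := ⟨_, rfl⟩
      rw [← hm]
      have h2 : cj (p m) (∑ k ∈ II U Q, Pg p f k.out) =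
          ∑ k ∈ II U Q, cj (p m) (Pg p f k.out) := by
        funext z
        rw [Finset.sum_apply]
        show (∑ k ∈ II U Q, Pg p f k.out) _ = _
        rw [Finset.sum_apply]
        rfl
      rw [h2]
      refine Finset.sum_bij (fun k _ => (m : G) • k) ?_ ?_ ?_ ?_
      · intro k hk
        rw [mem_II] at hk ⊢
        have h3 : ((m : G) * k.out)⁻¹ * ((m : G) • k).out ∈ Subgroup.normalizer (U : Set G) := by
          rw [← QuotientGroup.eq, QuotientGroup.out_eq']
          have h4 : (((m : G) * k.out : G) : G ⧸ Subgroup.normalizer (U : Set G)) =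
              (m : G) • ((k.out : G) : G ⧸ Subgroup.normalizer (U : Set G)) := rfl
          rw [h4, QuotientGroup.out_eq']
        exact (bt_coset h3).1 ((bt_mul m.2).2 hk)
      · intro a _ b _ hab
        exact smul_left_cancel (m : G) hab
      · intro k hk
        refine ⟨(m : G)⁻¹ • k, ?_, smul_inv_smul _ _⟩
        rw [mem_II] at hk ⊢
        have h3 : ((m : G)⁻¹ * k.out)⁻¹ * ((m : G)⁻¹ • k).out ∈
            Subgroup.normalizer (U : Set G) := by
          rw [← QuotientGroup.eq, QuotientGroup.out_eq']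
          have h4 : (((m : G)⁻¹ * k.out : G) : G ⧸ Subgroup.normalizer (U : Set G)) =
              (m : G)⁻¹ • ((k.out : G) : G ⧸ Subgroup.normalizer (U : Set G)) := rfl
          rw [h4, QuotientGroup.out_eq']
        exact (bt_coset h3).1 ((bt_mul (inv_mem m.2)).2 hk)
      · intro k hk
        rw [cj_Pg]
        apply h.Pg_coset
        rw [← QuotientGroup.eq, QuotientGroup.out_eq']
        have h4 : (((m : G) * k.out : G) : G ⧸ Subgroup.normalizer (U : Set G)) =
            (m : G) • ((k.out : G) : G ⧸ Subgroup.normalizer (U : Set G)) := rfl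
        rw [h4, QuotientGroup.out_eq']
    have h5 := congrFun h1 x
    have h6 : cj (p n)⁻¹ (∑ k ∈ II U Q, Pg p f k.out) x =
        (∑ k ∈ II U Q, Pg p f k.out) (p n * x * (p n)⁻¹) := by
      unfold cj
      rw [inv_inv]
    rw [← h6, h5]
  · apply ma_injective
    rw [ma_mul]
    conv_lhs =>
      rw [ma_sum (II U Q) (fun k => Pg p f k.out), Finset.mul_sum]
    rw [ma_sum]
    refine Finset.sum_congr rfl fun q hq => ?_
    have h1 := congrArg ma (h.mul_sum p hq)
    rw [ma_mul, ma_sum] at h1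
    exact h1

theorem Eo.ixP (h : Eo ℓ U Q f) {g : G} (hg : Bt U Q g) : Ix (Cp p) (Pg p f g) := by
  refine ⟨Pg_supp p g, ?_, ?_⟩
  · intro x y
    obtain ⟨n, hn, hny⟩ := (mem_Cp p).1 y.2
    have h1 := (cj_eq_iff _ _).1 (h.Pg_fix p (cent_le hg hn)) (x : A)
    rw [hny] at h1
    exact h1
  · rw [← mulF_res (Cp p) _ (Pg_supp p g), h.Pg_idem p hg]

/-- the stabiliser of a block under `E_g` -/
theorem Eo.stab_le (h : Eo ℓ U Q f) (hp : Function.Surjective p) {g : G} (hg : Bt U Q g)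
    {b : A → F} (hb : b ≠ 0) (hgb : mulF (Pg p f g) b = b) : stabF b ≤ Ag p U g := by
  intro α hα
  obtain ⟨n, rfl⟩ := hp α
  rw [mem_Ag]
  refine ⟨n, ?_, rfl⟩
  by_contra hn
  apply hb
  have h1 : cj (p n) b = b := (cj_eq_iff _ _).2 hα
  have h2 : mulF (Pg p f (n * g)) b = b := by
    rw [← cj_Pg]
    conv_lhs => rw [← h1]
    rw [← cj_mulF, hgb, h1]
  have h3 : mulF (Pg p f (n * g)) (Pg p f g) = 0 := by
    apply h.Pg_orth p ((bt_mul n.2).2 hg) hg
    intro h4
    apply hn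
    rw [mem_conjX]
    have h5 := inv_mem h4
    have e : (((n : G) * g)⁻¹ * g)⁻¹ = g⁻¹ * n * g := by group
    rwa [e] at h5
  rw [← h2, ← hgb, ← H20.mulF_assoc, h3, mulF_zero_left]

/-- a block under `E` is under one of the `E_q` -/
theorem Eo.exists_q (h : Eo ℓ U Q f) {b : A → F} (hb : Bx (Cp p) b)
    (hE : mulF (∑ k ∈ II U Q, Pg p f k.out) b = b) :
    ∃ q ∈ II U Q, mulF (Pg p f q.out) b = b := by
  by_contra hcon
  push Not at hcon
  apply hb.ne
  rw [← hE]
  apply ma_injective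
  rw [ma_mul, ma_sum, Finset.sum_mul, ma_zero]
  refine Finset.sum_eq_zero fun q hq => ?_
  have h1 := h.ixP p (mem_II.1 hq)
  rw [← ma_mul]
  rcases hb.dich' h1 with h2 | h2
  · rw [hb.ix.comm h1] at h2
    exact absurd h2 (hcon q hq)
  · rw [hb.ix.comm h1] at h2
    rw [h2, ma_zero]

theorem Eo.uniq_q (h : Eo ℓ U Q f) {b : A → F} (hb : b ≠ 0)
    {q k : G ⧸ Subgroup.normalizer (U : Set G)} (hq : q ∈ II U Q) (hk : k ∈ II U Q)
    (h1 : mulF (Pg p f q.out) b = b) (h2 : mulF (Pg p f k.out) b = b) : q = k := by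
  by_contra hne
  apply hb
  have h3 := h.Pg_orth p (mem_II.1 hq) (mem_II.1 hk) (Eo.out_ne hne)
  rw [← h1, ← h2, ← H20.mulF_assoc, h3, mulF_zero_left]

theorem Eo.under_q (h : Eo ℓ U Q f) {b : A → F}
    {q : G ⧸ Subgroup.normalizer (U : Set G)} (hq : q ∈ II U Q)
    (h1 : mulF (Pg p f q.out) b = b) : mulF (∑ k ∈ II U Q, Pg p f k.out) b = b := by
  conv_lhs => rw [← h1]
  rw [← H20.mulF_assoc, h.mul_sum p hq, h1]

/-- FRS in the subgroup `A_g` -/
theorem Eo.frs_g [Fact ℓ.Prime] (frs : FrsStmt) (h : Eo ℓ U Q f) (hp : Function.Surjective p)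
    {g : G} (hg : Bt U Q g) :
    ∑ᶠ b ∈ {b : A → F | Bx (Cp p) b ∧ mulF (Pg p f g) b = b}, WW ℓ b =
      YY ℓ (⊤ : Subgroup (Ag p U g)) (fun t : Ag p U g => Pg p f g t) := by
  obtain ⟨K, hK⟩ : ∃ K, K = Ag p U g := ⟨_, rfl⟩
  have hCK : Cp p ≤ K := by rw [hK]; exact Cp_le_Ag p hg
  have hst : ∀ b : A → F, b ≠ 0 → mulF (Pg p f g) b = b → stabF b ≤ K := by
    rw [hK]
    exact fun b hb hgb => h.stab_le p hp hg hb hgb
  have hfix : ∀ y ∈ K, cj y (Pg p f g) = Pg p f g := by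
    rw [hK]
    intro y hy
    obtain ⟨n, hn, rfl⟩ := (mem_Ag p).1 hy
    exact h.Pg_fix p hn
  rw [← hK]
  have hPs := Pg_supp (f := f) p g
  have hPK : ∀ x, x ∉ K → Pg p f g x = 0 := fun x hx => hPs x (fun h' => hx (hCK h'))
  have hn : ((Cp p).subgroupOf K).Normal := by
    have := Cp_normal p hp
    infer_instance
  have hid : IsIdem (fun t : K => Pg p f g t) := by
    constructor
    · intro x y
      have h1 := (cj_eq_iff _ _).1 (hfix (y : A) y.2) (x : A)
      exact h1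
    · rw [← mulF_res K _ hPK, h.Pg_idem p hg]
  have h1 := frs ℓ F h.hF K ((Cp p).subgroupOf K) hn (fun t : K => Pg p f g t) hid
    (fun x hx => hPs x hx)
  rw [h1]
  refine finsum_mem_eq_of_bijOn (s := {b : A → F | Bx (Cp p) b ∧ mulF (Pg p f g) b = b})
    (t := {b' : K → F | Bx ((Cp p).subgroupOf K) b' ∧ mulF (fun t : K => Pg p f g t) b' = b'})
    (fun b => fun t : K => b t) ⟨?_, ?_, ?_⟩ ?_
  · rintro b ⟨hb1, hb2⟩
    refine ⟨bx_res hCK hb1, ?_⟩
    rw [← mulF_res K b hPK, hb2]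
  · rintro b ⟨hb1, -⟩ c ⟨hc1, -⟩ hbc
    exact eq_of_res (fun x hx => hb1.supp x (fun h' => hx (hCK h')))
      (fun x hx => hc1.supp x (fun h' => hx (hCK h'))) hbc
  · rintro b' ⟨hb1, hb2⟩
    have h3 : (fun t : K => H75.ext0 K b' t) = b' := funext (ext0_apply K b')
    refine ⟨H75.ext0 K b', ⟨bx_ext hCK hb1, ?_⟩, h3⟩
    apply eq_of_res (N := K) (mulF_supp K hPK (ext0_supp K b')) (ext0_supp K b')
    rw [mulF_res K _ hPK, h3, hb2]
  · rintro b ⟨hb1, hb2⟩
    exact (YY_stab ℓ hCK hb1.supp (hst b hb1.ne hb2)).symm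

/-- FRS in `A`, compared with the subgroups -/
theorem Eo.frs_all [Fact ℓ.Prime] (frs : FrsStmt) (h : Eo ℓ U Q f)
    (hp : Function.Surjective p) :
    YY ℓ (⊤ : Subgroup A) (push p (fun t : Subgroup.normalizer (Q : Set G) => brU U Q f t)) =
      ∑ q ∈ II U Q, YY ℓ (⊤ : Subgroup (Ag p U q.out)) (fun t : Ag p U q.out => Pg p f q.out t) := by
  rw [push_brU]
  have hsupp : ∀ x, x ∉ Cp p → (∑ k ∈ II U Q, Pg p f k.out) x = 0 := by
    intro x hx
    rw [Finset.sum_apply]
    exact Finset.sum_eq_zero fun q _ => Pg_supp p q.out x hx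
  rw [frs ℓ F h.hF A (Cp p) (Cp_normal p hp) _ (h.sum_idem p hp) hsupp]
  have h1 : {b : A → F | Bx (Cp p) b ∧ mulF (∑ k ∈ II U Q, Pg p f k.out) b = b} =
      ⋃ q ∈ (II U Q : Set (G ⧸ Subgroup.normalizer (U : Set G))),
        {b : A → F | Bx (Cp p) b ∧ mulF (Pg p f q.out) b = b} := by
    ext b
    rw [Set.mem_iUnion₂]
    constructor
    · rintro ⟨hb1, hb2⟩
      obtain ⟨q, hq, hqb⟩ := h.exists_q p hb1 hb2
      exact ⟨q, hq, hb1, hqb⟩
    · rintro ⟨q, hq, hb1, hb2⟩
      exact ⟨hb1, h.under_q p hq hb2⟩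
  have h2 : ∑ᶠ (b : A → F) (_ : Bx (Cp p) b ∧ mulF (∑ k ∈ II U Q, Pg p f k.out) b = b),
      YY ℓ (⊤ : Subgroup (stabF b)) (fun t : stabF b => b t) =
      ∑ᶠ b ∈ {b : A → F | Bx (Cp p) b ∧ mulF (∑ k ∈ II U Q, Pg p f k.out) b = b}, WW ℓ b := rfl
  rw [h2, h1, finsum_mem_biUnion]
  · rw [finsum_mem_coe_finset]
    refine Finset.sum_congr rfl fun q hq => ?_
    exact h.frs_g p frs hp (mem_II.1 hq)
  · intro q hq k hk hne
    rw [Function.onFun, Set.disjoint_left]
    rintro b ⟨hb1, hb2⟩ ⟨-, hb3⟩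
    exact hne (h.uniq_q p hb1.ne hq hk hb2 hb3)
  · exact (II U Q).finite_toSet
  · intro q _
    exact (bx_finite (Cp p)).subset (fun b hb => hb.1)

end pushenv

section yq

variable {F G A : Type} [Field F] [Group G] [Finite G] [Group A] [Finite A]
variable {ℓ : ℕ} {U Q : Subgroup G} {f : G → F}

/-- TEB for one `g` -/
theorem Eo.yq (h : Eo ℓ U Q f) (p : Subgroup.normalizer (Q : Set G) →* A)
    (hker : p.ker = Q.subgroupOf (Subgroup.normalizer (Q : Set G))) {g : G} (hg : Bt U Q g) :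
    YY ℓ (⊤ : Subgroup (Ag p U g)) (fun t : Ag p U g => Pg p f g t) =
      YQ ℓ (fun t : Subgroup.normalizer (U : Set G) => f t)
        ((conjS g⁻¹ Q).subgroupOf (Subgroup.normalizer (U : Set G))) := by
  classical
  have hpk : ∀ n : Subgroup.normalizer (Q : Set G), p n = 1 ↔ (n : G) ∈ Q := by
    intro n
    rw [← MonoidHom.mem_ker, hker, Subgroup.mem_subgroupOf]
  have hQ' : ∀ x : Subgroup.normalizer (U : Set G),
      x ∈ (conjS g⁻¹ Q).subgroupOf (Subgroup.normalizer (U : Set G)) ↔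
        g * (x : G) * g⁻¹ ∈ Q := by
    intro x
    rw [Subgroup.mem_subgroupOf, H62.mem_conjS, inv_inv]
  unfold YQ
  obtain ⟨QX, hQX⟩ : ∃ QX, QX = (conjS g⁻¹ Q).subgroupOf (Subgroup.normalizer (U : Set G)) :=
    ⟨_, rfl⟩
  have hone : ∀ x ∈ ((conjS g⁻¹ Q).subgroupOf (Subgroup.normalizer (U : Set G))).subgroupOf
      (Subgroup.normalizer (((conjS g⁻¹ Q).subgroupOf (Subgroup.normalizer (U : Set G)) :
      Subgroup (Subgroup.normalizer (U : Set G))) : Set (Subgroup.normalizer (U : Set G)))),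
      p.comp (io hg) x = 1 := by
    intro x hx
    rw [MonoidHom.comp_apply, hpk, io_coe]
    exact (hQ' _).1 hx
  let φ := QuotientGroup.lift _ (p.comp (io hg)) hone
  have hφ : ∀ x, φ (QuotientGroup.mk' _ x) = p (io hg x) := fun x => rfl
  have hinj : Function.Injective φ := by
    rw [injective_iff_map_eq_one]
    intro y hy
    obtain ⟨x, rfl⟩ := QuotientGroup.mk'_surjective _ y
    rw [hφ, hpk, io_coe] at hy
    exact (QuotientGroup.eq_one_iff x).2 (Subgroup.mem_subgroupOf.2 ((hQ' _).2 hy))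
  have hrange : φ.range = Ag p U g := by
    ext y
    rw [MonoidHom.mem_range, mem_Ag]
    constructor
    · rintro ⟨z, rfl⟩
      obtain ⟨x, rfl⟩ := QuotientGroup.mk'_surjective _ z
      refine ⟨io hg x, ?_, (hφ x).symm⟩
      rw [io_coe, mem_conjX]
      have e : g⁻¹ * (g * ((x : Subgroup.normalizer (U : Set G)) : G) * g⁻¹) * g =
        ((x : Subgroup.normalizer (U : Set G)) : G) := by group
      rw [e]
      exact (x : Subgroup.normalizer (U : Set G)).2
    · rintro ⟨n, hn, rfl⟩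
      have h1 := (mem_conjX g _).1 hn
      have e : g * (g⁻¹ * (n : G) * g) * g⁻¹ = n := by group
      have h2 : (⟨g⁻¹ * n * g, h1⟩ : Subgroup.normalizer (U : Set G)) ∈
          Subgroup.normalizer (((conjS g⁻¹ Q).subgroupOf (Subgroup.normalizer (U : Set G)) :
      Subgroup (Subgroup.normalizer (U : Set G))) : Set (Subgroup.normalizer (U : Set G))) := by
        rw [mem_NX hg]
        show g * (g⁻¹ * (n : G) * g) * g⁻¹ ∈ _
        rw [e]
        exact n.2
      refine ⟨QuotientGroup.mk' _ ⟨_, h2⟩, ?_⟩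
      rw [hφ]
      congr 1
      apply Subtype.ext
      rw [io_coe]
      exact e
  rw [← YY_range ℓ φ hinj hrange (Pg p f g)]
  congr 1
  -- the functions
  have h3 : Pg p f g = push (p.comp (io hg))
      (fun c => Eg Q f g ((io hg c : Subgroup.normalizer (Q : Set G)) : G)) := by
    unfold Pg
    refine (C2.H92.push_inj p (io hg) (io_inj hg)
      (fun t : Subgroup.normalizer (Q : Set G) => Eg Q f g t) ?_).symm
    intro x hx
    apply Eg_supp
    intro hxC
    apply hx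
    have h1 := (mem_conjX g _).1 (cent_le hg hxC)
    have e : g * (g⁻¹ * (x : G) * g) * g⁻¹ = x := by group
    have h2 : (⟨g⁻¹ * x * g, h1⟩ : Subgroup.normalizer (U : Set G)) ∈
        Subgroup.normalizer (((conjS g⁻¹ Q).subgroupOf (Subgroup.normalizer (U : Set G)) :
      Subgroup (Subgroup.normalizer (U : Set G))) : Set (Subgroup.normalizer (U : Set G))) := by
      rw [mem_NX hg]
      show g * (g⁻¹ * (x : G) * g) * g⁻¹ ∈ _
      rw [e]
      exact x.2
    exact ⟨⟨_, h2⟩, Subtype.ext e⟩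
  funext y
  rw [h3]
  have := Fintype.ofFinite (Subgroup.normalizer
    (((conjS g⁻¹ Q).subgroupOf (Subgroup.normalizer (U : Set G)) :
      Subgroup (Subgroup.normalizer (U : Set G))) : Set (Subgroup.normalizer (U : Set G))))
  rw [push_eq, push_eq]
  refine Finset.sum_congr rfl fun x _ => ?_
  have h4 : (p.comp (io hg)) x = φ y ↔ (QuotientGroup.mk' _) x = y := by
    constructor
    · intro h5
      apply hinj
      rw [hφ]
      exact h5
    · intro h5
      rw [← h5, hφ]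
      rfl
  have h5 : Eg Q f g ((io hg x : Subgroup.normalizer (Q : Set G)) : G) =
      br ((conjS g⁻¹ Q).subgroupOf (Subgroup.normalizer (U : Set G)))
        (fun t : Subgroup.normalizer (U : Set G) => f t)
        (x : Subgroup.normalizer (U : Set G)) := by
    have e : g⁻¹ * (g * ((x : Subgroup.normalizer (U : Set G)) : G) * g⁻¹) * g =
        ((x : Subgroup.normalizer (U : Set G)) : G) := by group
    have h6 : (x : Subgroup.normalizer (U : Set G)) ∈ Subgroup.centralizer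
        (((conjS g⁻¹ Q).subgroupOf (Subgroup.normalizer (U : Set G)) :
      Subgroup (Subgroup.normalizer (U : Set G))) : Set (Subgroup.normalizer (U : Set G))) ↔
        g * ((x : Subgroup.normalizer (U : Set G)) : G) * g⁻¹ ∈
          Subgroup.centralizer (Q : Set G) := by
      rw [cent_sub (Q'_le hg), H62.mem_cent_conjS, inv_inv]
    unfold Eg
    rw [io_coe]
    by_cases h7 : g * ((x : Subgroup.normalizer (U : Set G)) : G) * g⁻¹ ∈
        Subgroup.centralizer (Q : Set G)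
    · rw [H66.br_of_mem h7, H66.br_of_mem (h6.2 h7)]
      show f (g⁻¹ * (g * ((x : Subgroup.normalizer (U : Set G)) : G) * g⁻¹) * g) = _
      rw [e]
    · rw [H66.br_of_not_mem h7, H66.br_of_not_mem (fun h8 => h7 (h6.1 h8))]
  rw [h5]
  by_cases h8 : (QuotientGroup.mk' _) x = y
  · rw [if_pos h8, if_pos (h4.2 h8)]
  · rw [if_neg h8, if_neg (fun h9 => h8 (h4.1 h9))]

end yq

/-- TB5 -/
theorem tb5 (hfrs : T2.FrsStmt) : Tb5Stmt := by
  intro ℓ _ F _ hF G _ _ e _ U f _ hUo Q hQ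
  have hE : Eo ℓ U Q f := ⟨hF, hUo.ix, hQ, hUo.ort Q hQ⟩
  have hs := QuotientGroup.mk'_surjective (Q.subgroupOf (Subgroup.normalizer (Q : Set G)))
  have hk := QuotientGroup.ker_mk' (Q.subgroupOf (Subgroup.normalizer (Q : Set G)))
  rw [hE.frs_all _ hfrs hs, finsum_II (U := U) (Q := Q)
    (fun q => YQ ℓ (fun t : Subgroup.normalizer (U : Set G) => f t)
        ((conjS q.out⁻¹ Q).subgroupOf (Subgroup.normalizer (U : Set G))))]
  refine Finset.sum_congr rfl fun q hq => ?_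
  exact hE.yq _ hk (mem_II.1 hq)

end Pool.Agent.PP.T5.H70
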